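import Mathlib

set_option autoImplicit false

/-!
The real Lie algebra `su(p,q)` and its element `i * diag(q,..,q,-p,..,-p)`.
-/

namespace Pool.Agent.Work.MP_61cc98_al_helper49

open Matrix

attribute [local instance 100] LieRing.ofAssociativeRing

/-- The signature matrix `diag(1,..,1,-1,..,-1)` with `p` entries `1` and `q` entries `-1`. -/
def J (p q : ℕ) : Matrix (Fin p ⊕ Fin q) (Fin p ⊕ Fin q) ℂ :=
  Matrix.diagonal (Sum.elim (fun _ => 1) (fun _ => -1))

/-- The matrix `i * diag(q,..,q,-p,..,-p)`. -/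
noncomputable def zMat (p q : ℕ) : Matrix (Fin p ⊕ Fin q) (Fin p ⊕ Fin q) ℂ :=
  Matrix.diagonal (Sum.elim (fun _ => Complex.I * q) (fun _ => -(Complex.I * p)))

/-- The real Lie algebra `su(p,q)` as a Lie subalgebra of the complex `(p+q) × (p+q)` matrices. -/
def su (p q : ℕ) : LieSubalgebra ℝ (Matrix (Fin p ⊕ Fin q) (Fin p ⊕ Fin q) ℂ) where
  carrier := {X | Xᴴ * J p q + J p q * X = 0 ∧ X.trace = 0}
  add_mem' := by
    rintro X Y ⟨hX, hX'⟩ ⟨hY, hY'⟩
    refine ⟨?_, by rw [Matrix.trace_add, hX', hY', add_zero]⟩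
    rw [Matrix.conjTranspose_add, add_mul, mul_add]
    calc Xᴴ * J p q + Yᴴ * J p q + (J p q * X + J p q * Y)
        = (Xᴴ * J p q + J p q * X) + (Yᴴ * J p q + J p q * Y) := by abel
      _ = 0 := by rw [hX, hY, add_zero]
  zero_mem' := by simp
  smul_mem' := by
    rintro c X ⟨hX, hX'⟩
    refine ⟨?_, by rw [Matrix.trace_smul, hX', smul_zero]⟩
    rw [Matrix.conjTranspose_smul, Matrix.smul_mul, Matrix.mul_smul, star_trivial,
      ← smul_add, hX, smul_zero]
  lie_mem' := by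
    rintro X Y ⟨hX, hX'⟩ ⟨hY, hY'⟩
    have hX2 : Xᴴ * J p q = -(J p q * X) := eq_neg_of_add_eq_zero_left hX
    have hY2 : Yᴴ * J p q = -(J p q * Y) := eq_neg_of_add_eq_zero_left hY
    refine ⟨?_, by rw [Ring.lie_def, Matrix.trace_sub, Matrix.trace_mul_comm, sub_self]⟩
    rw [Ring.lie_def, Matrix.conjTranspose_sub, Matrix.conjTranspose_mul,
      Matrix.conjTranspose_mul, sub_mul, Matrix.mul_assoc, Matrix.mul_assoc, hX2, hY2]
    rw [Matrix.mul_neg, Matrix.mul_neg, ← Matrix.mul_assoc, ← Matrix.mul_assoc, hX2, hY2]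
    noncomm_ring

end Pool.Agent.Work.MP_61cc98_al_helper49
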