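import Mathlib
import Pool.Agent.Work.MP_61cc98_al_helper49.Defs

set_option autoImplicit false

/-!
The real Lie algebra `su(p,q)` and the element `i * diag(q,..,q,-p,..,-p)`, which is not a single
bracket when `p ≠ q` are positive.
-/

namespace Pool.Agent.Work.MP_61cc98_al_helper49

open Matrix

attribute [local instance 100] LieRing.ofAssociativeRing

variable {p q : ℕ}

lemma J_mul_J : J p q * J p q = 1 := by
  unfold J
  rw [Matrix.diagonal_mul_diagonal, ← Matrix.diagonal_one]
  congr 1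
  funext i
  rcases i with i | i <;> simp

lemma J_conjTranspose : (J p q)ᴴ = J p q := by
  unfold J
  rw [Matrix.diagonal_conjTranspose]
  congr 1
  funext i
  rcases i with i | i <;> simp

lemma mem_su {X : Matrix (Fin p ⊕ Fin q) (Fin p ⊕ Fin q) ℂ} :
    X ∈ su p q ↔ Xᴴ * J p q + J p q * X = 0 ∧ X.trace = 0 := Iff.rfl

instance : FiniteDimensional ℝ (su p q) :=
  inferInstanceAs (FiniteDimensional ℝ (su p q).toSubmodule)

/-- The trace form `(x, y) ↦ Re tr(x y)`. -/
noncomputable def form (p q : ℕ) : LinearMap.BilinForm ℝ (su p q) :=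
  LinearMap.mk₂ ℝ (fun x y : su p q =>
      ((x : Matrix (Fin p ⊕ Fin q) (Fin p ⊕ Fin q) ℂ) *
        (y : Matrix (Fin p ⊕ Fin q) (Fin p ⊕ Fin q) ℂ)).trace.re)
    (by intro x y z; simp [add_mul])
    (by intro c x y; simp)
    (by intro x y z; simp [mul_add])
    (by intro c x y; simp)

lemma form_apply (x y : su p q) : form p q x y =
    ((x : Matrix (Fin p ⊕ Fin q) (Fin p ⊕ Fin q) ℂ) *
      (y : Matrix (Fin p ⊕ Fin q) (Fin p ⊕ Fin q) ℂ)).trace.re := rfl

lemma conjTranspose_mem {X : Matrix (Fin p ⊕ Fin q) (Fin p ⊕ Fin q) ℂ} (hX : X ∈ su p q) :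
    Xᴴ ∈ su p q := by
  obtain ⟨h1, h2⟩ := hX
  have hX2 : Xᴴ * J p q = -(J p q * X) := eq_neg_of_add_eq_zero_left h1
  refine ⟨?_, ?_⟩
  · rw [Matrix.conjTranspose_conjTranspose]
    have h3 : J p q * (Xᴴ * J p q) * J p q = J p q * (-(J p q * X)) * J p q := by rw [hX2]
    have h4 : J p q * (Xᴴ * J p q) * J p q = J p q * Xᴴ := by
      rw [Matrix.mul_assoc, Matrix.mul_assoc, J_mul_J, Matrix.mul_one]
    have h5 : J p q * (-(J p q * X)) * J p q = -(X * J p q) := by
      rw [Matrix.mul_neg, ← Matrix.mul_assoc, J_mul_J, Matrix.one_mul, Matrix.neg_mul]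
    rw [← h4, h3, h5, add_neg_cancel]
  · rw [Matrix.trace_conjTranspose, h2, star_zero]

lemma form_symm (x y : su p q) : form p q x y = form p q y x := by
  rw [form_apply, form_apply, Matrix.trace_mul_comm]

lemma form_nondeg_aux (x : su p q) (h : ∀ y, form p q x y = 0) : x = 0 := by
  have h1 := h ⟨_, conjTranspose_mem x.2⟩
  rw [form_apply] at h1
  simp only at h1
  have h2 : ((x : Matrix (Fin p ⊕ Fin q) (Fin p ⊕ Fin q) ℂ) *
      (x : Matrix (Fin p ⊕ Fin q) (Fin p ⊕ Fin q) ℂ)ᴴ).trace.re =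
      ∑ i, ∑ j, Complex.normSq ((x : Matrix (Fin p ⊕ Fin q) (Fin p ⊕ Fin q) ℂ) i j) := by
    simp only [Matrix.trace, Matrix.diag_apply, Matrix.mul_apply, Matrix.conjTranspose_apply,
      Complex.re_sum]
    refine Finset.sum_congr rfl fun i _ => Finset.sum_congr rfl fun j _ => ?_
    rw [Complex.star_def, Complex.mul_conj, Complex.ofReal_re]
  rw [h2] at h1
  have h3 : ∀ i j, (x : Matrix (Fin p ⊕ Fin q) (Fin p ⊕ Fin q) ℂ) i j = 0 := by
    intro i j
    have h4 := (Finset.sum_eq_zero_iff_of_nonneg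
      (fun i _ => Finset.sum_nonneg (fun j _ => Complex.normSq_nonneg _))).1 h1 i (Finset.mem_univ i)
    have h5 := (Finset.sum_eq_zero_iff_of_nonneg
      (fun j _ => Complex.normSq_nonneg _)).1 h4 j (Finset.mem_univ j)
    exact Complex.normSq_eq_zero.1 h5
  apply Subtype.ext
  ext i j
  exact h3 i j

lemma form_refl : (form p q).IsRefl := fun x y h => by rw [form_symm]; exact h

lemma form_nondeg : (form p q).Nondegenerate := by
  constructor
  · intro x hx
    exact form_nondeg_aux x hx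
  · intro x hx
    exact form_nondeg_aux x (fun y => by rw [form_symm]; exact hx y)

lemma form_inv : (form p q).lieInvariant (su p q) := by
  intro x y z
  rw [form_apply, form_apply, LieSubalgebra.coe_bracket, LieSubalgebra.coe_bracket,
    Ring.lie_def, Ring.lie_def, sub_mul, mul_sub, Matrix.trace_sub, Matrix.trace_sub,
    Complex.sub_re, Complex.sub_re]
  rw [Matrix.mul_assoc, Matrix.trace_mul_comm (x : Matrix (Fin p ⊕ Fin q) (Fin p ⊕ Fin q) ℂ)
    ((y : Matrix (Fin p ⊕ Fin q) (Fin p ⊕ Fin q) ℂ) *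
      (z : Matrix (Fin p ⊕ Fin q) (Fin p ⊕ Fin q) ℂ)), Matrix.mul_assoc,
    Matrix.mul_assoc]
  ring

/-- Elements `y` of `su(p,q)` from arbitrary matrices. -/
lemma skew_mem (hp : 0 < p) (Y : Matrix (Fin p ⊕ Fin q) (Fin p ⊕ Fin q) ℂ) :
    (Y - J p q * Yᴴ * J p q) - ((Y - J p q * Yᴴ * J p q).trace / ((p : ℂ) + q)) •
      (1 : Matrix (Fin p ⊕ Fin q) (Fin p ⊕ Fin q) ℂ) ∈ su p q := by
  set Z := Y - J p q * Yᴴ * J p q with hZ
  have hpq0 : ((p : ℂ) + q) ≠ 0 := by
    exact_mod_cast (by omega : p + q ≠ 0)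
  have hZJ : Zᴴ * J p q = -(J p q * Z) := by
    rw [hZ, Matrix.conjTranspose_sub, Matrix.conjTranspose_mul, Matrix.conjTranspose_mul,
      Matrix.conjTranspose_conjTranspose, J_conjTranspose, sub_mul, mul_sub]
    have e1 : J p q * (Y * J p q) * J p q = J p q * Y := by
      rw [Matrix.mul_assoc, Matrix.mul_assoc, J_mul_J, Matrix.mul_one]
    have e2 : J p q * (J p q * Yᴴ * J p q) = Yᴴ * J p q := by
      rw [← Matrix.mul_assoc, ← Matrix.mul_assoc, J_mul_J, Matrix.one_mul]
    rw [e1, e2, neg_sub]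
  have htr : star Z.trace = - Z.trace := by
    have h1 : (Zᴴ * J p q * J p q).trace = (-(J p q * Z) * J p q).trace := by rw [hZJ]
    rw [Matrix.mul_assoc, J_mul_J, Matrix.mul_one, Matrix.trace_conjTranspose,
      Matrix.neg_mul, Matrix.trace_neg, Matrix.trace_mul_comm, ← Matrix.mul_assoc, J_mul_J,
      Matrix.one_mul] at h1
    exact h1
  constructor
  · rw [Matrix.conjTranspose_sub, Matrix.conjTranspose_smul, Matrix.conjTranspose_one,
      sub_mul, mul_sub, hZJ]
    have h3 : star (Z.trace / ((p : ℂ) + q)) = -(Z.trace / ((p : ℂ) + q)) := by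
      rw [star_div₀, htr]
      simp
      ring
    rw [h3, Matrix.smul_mul, Matrix.mul_smul, Matrix.one_mul, Matrix.mul_one]
    rw [neg_smul]
    abel
  · rw [Matrix.trace_sub, Matrix.trace_smul, Matrix.trace_one]
    simp only [Fintype.card_sum, Fintype.card_fin, Nat.cast_add, smul_eq_mul]
    rw [div_mul_cancel₀ _ hpq0, sub_self]

lemma double_bracket (hp : 0 < p) {X : Matrix (Fin p ⊕ Fin q) (Fin p ⊕ Fin q) ℂ}
    (h : ∀ Y ∈ su p q, X * (X * Y - Y * X) - (X * Y - Y * X) * X = 0)
    (Y : Matrix (Fin p ⊕ Fin q) (Fin p ⊕ Fin q) ℂ) :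
    X * (X * Y - Y * X) - (X * Y - Y * X) * X = 0 := by
  have key : ∀ Y : Matrix (Fin p ⊕ Fin q) (Fin p ⊕ Fin q) ℂ,
      X * (X * (Y - J p q * Yᴴ * J p q) - (Y - J p q * Yᴴ * J p q) * X)
        - (X * (Y - J p q * Yᴴ * J p q) - (Y - J p q * Yᴴ * J p q) * X) * X = 0 := by
    intro Y
    have h1 := h _ (skew_mem hp Y)
    set Z := Y - J p q * Yᴴ * J p q with hZ
    have h2 : X * (Z - (Z.trace / ((p : ℂ) + q)) •
        (1 : Matrix (Fin p ⊕ Fin q) (Fin p ⊕ Fin q) ℂ)) -
        (Z - (Z.trace / ((p : ℂ) + q)) • (1 : Matrix (Fin p ⊕ Fin q) (Fin p ⊕ Fin q) ℂ)) * X =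
        X * Z - Z * X := by
      rw [mul_sub, sub_mul, Matrix.mul_smul, Matrix.smul_mul, Matrix.mul_one, Matrix.one_mul]
      abel
    rw [h2] at h1
    exact h1
  have k1 := key Y
  have k2 := key (Complex.I • Y)
  have e : J p q * (Complex.I • Y)ᴴ * J p q = -(Complex.I • (J p q * Yᴴ * J p q)) := by
    rw [Matrix.conjTranspose_smul, Matrix.mul_smul, Matrix.smul_mul, Complex.star_def,
      Complex.conj_I, neg_smul]
  rw [e] at k2
  have k3 : Complex.I • (X * (X * (Y + J p q * Yᴴ * J p q) - (Y + J p q * Yᴴ * J p q) * X)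
        - (X * (Y + J p q * Yᴴ * J p q) - (Y + J p q * Yᴴ * J p q) * X) * X) = 0 := by
    rw [← k2]
    simp only [sub_neg_eq_add, Matrix.mul_sub, Matrix.sub_mul, Matrix.mul_add, Matrix.add_mul,
      Matrix.mul_smul, Matrix.smul_mul, smul_sub, smul_add]
  have k4 := (smul_eq_zero.1 k3).resolve_left Complex.I_ne_zero
  have k5 : (2 : ℂ) • (X * (X * Y - Y * X) - (X * Y - Y * X) * X) = 0 := by
    have : (2 : ℂ) • (X * (X * Y - Y * X) - (X * Y - Y * X) * X) =
        (X * (X * (Y - J p q * Yᴴ * J p q) - (Y - J p q * Yᴴ * J p q) * X)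
        - (X * (Y - J p q * Yᴴ * J p q) - (Y - J p q * Yᴴ * J p q) * X) * X) +
        (X * (X * (Y + J p q * Yᴴ * J p q) - (Y + J p q * Yᴴ * J p q) * X)
        - (X * (Y + J p q * Yᴴ * J p q) - (Y + J p q * Yᴴ * J p q) * X) * X) := by
      rw [two_smul]
      noncomm_ring
    rw [this, k1, k4, add_zero]
  exact (smul_eq_zero.1 k5).resolve_left two_ne_zero

lemma scalar_of_double {X : Matrix (Fin p ⊕ Fin q) (Fin p ⊕ Fin q) ℂ}
    (h : ∀ Y : Matrix (Fin p ⊕ Fin q) (Fin p ⊕ Fin q) ℂ,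
      X * (X * Y - Y * X) - (X * Y - Y * X) * X = 0) :
    (∀ i j, i ≠ j → X i j = 0) ∧ (∀ i j, X i i = X j j) := by
  have hent : ∀ a i j b : Fin p ⊕ Fin q,
      (X * X) a i * (if j = b then 1 else 0) - 2 * (X a i * X j b) +
        (if a = i then 1 else 0) * (X * X) j b = 0 := by
    intro a i j b
    have h1 := congrFun (congrFun (h (Matrix.single i j 1)) a) b
    have e : X * (X * Matrix.single i j (1:ℂ) - Matrix.single i j (1:ℂ) * X) -
        (X * Matrix.single i j (1:ℂ) - Matrix.single i j (1:ℂ) * X) * X =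
        X * X * Matrix.single i j (1:ℂ) - (X * Matrix.single i j (1:ℂ) * X +
        X * Matrix.single i j (1:ℂ) * X) + Matrix.single i j (1:ℂ) * (X * X) := by
      noncomm_ring
    rw [e] at h1
    simp only [Matrix.add_apply, Matrix.sub_apply, Matrix.zero_apply] at h1
    have e1 : (X * X * Matrix.single i j (1:ℂ)) a b = (X * X) a i * (if j = b then 1 else 0) := by
      rw [Matrix.mul_apply]
      by_cases hjb : j = b
      · subst hjb
        rw [Finset.sum_eq_single i]
        · rw [Matrix.single_apply, if_pos ⟨rfl, rfl⟩, if_pos rfl]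
        · intro c _ hc
          rw [Matrix.single_apply, if_neg (fun hh => hc hh.1.symm), mul_zero]
        · simp
      · rw [if_neg hjb, mul_zero]
        apply Finset.sum_eq_zero
        intro c _
        rw [Matrix.single_apply, if_neg (fun hh => hjb hh.2), mul_zero]
    have e2 : (X * Matrix.single i j (1:ℂ) * X) a b = X a i * X j b := by
      rw [Matrix.mul_apply, Finset.sum_eq_single j]
      · rw [Matrix.mul_apply, Finset.sum_eq_single i]
        · simp [Matrix.single_apply]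
        · intro c _ hc
          simp [Matrix.single_apply, Ne.symm hc]
        · simp
      · intro c _ hc
        rw [Matrix.mul_apply, Finset.sum_eq_zero, zero_mul]
        intro d _
        simp [Matrix.single_apply, Ne.symm hc]
      · simp
    have e3 : (Matrix.single i j (1:ℂ) * (X * X)) a b =
        (if a = i then 1 else 0) * (X * X) j b := by
      rw [Matrix.mul_apply, Finset.sum_eq_single j]
      · by_cases hai : a = i
        · simp [Matrix.single_apply, hai]
        · simp [Matrix.single_apply, hai, Ne.symm hai]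
      · intro c _ hc
        simp [Matrix.single_apply, Ne.symm hc]
      · simp
    rw [e1, e2, e3] at h1
    linear_combination h1
  have hoff : ∀ i j, i ≠ j → X i j = 0 := by
    intro i j hij
    have h1 := hent i j i j
    simp only [hij, if_false, mul_zero, zero_sub, zero_mul, add_zero, neg_eq_zero] at h1
    have h2 : X i j * X i j = 0 := by
      rcases mul_eq_zero.1 h1 with h | h
      · norm_num at h
      · exact h
    exact mul_self_eq_zero.1 h2
  refine ⟨hoff, ?_⟩
  have hsq : ∀ i, (X * X) i i = X i i * X i i := by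
    intro i
    rw [Matrix.mul_apply]
    rw [Finset.sum_eq_single i]
    · intro j _ hj
      rw [hoff i j (Ne.symm hj), zero_mul]
    · simp
  intro i j
  have h1 := hent i i j j
  simp only [if_true, mul_one, one_mul] at h1
  rw [hsq, hsq] at h1
  have h2 : (X i i - X j j) * (X i i - X j j) = 0 := by linear_combination h1
  exact sub_eq_zero.1 (mul_self_eq_zero.1 h2)

lemma no_abelian_atom (hp : 0 < p) (I : LieIdeal ℝ (su p q)) (hI : IsAtom I) :
    ¬ IsLieAbelian I := by
  intro hab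
  apply hI.1
  rw [LieSubmodule.eq_bot_iff]
  intro x hx
  have h1 : ∀ y : su p q, ⁅x, ⁅x, y⁆⁆ = 0 := by
    intro y
    have hxy : ⁅x, y⁆ ∈ I := lie_mem_left ℝ (su p q) I x y hx
    have h2 := hab.trivial (⟨x, hx⟩ : I) ⟨⁅x, y⁆, hxy⟩
    have h3 := congrArg (fun t : I => (t : su p q)) h2
    simpa using h3
  have h2 : ∀ Y ∈ su p q, (x : Matrix (Fin p ⊕ Fin q) (Fin p ⊕ Fin q) ℂ) *
      ((x : Matrix (Fin p ⊕ Fin q) (Fin p ⊕ Fin q) ℂ) * Y
      - Y * (x : Matrix (Fin p ⊕ Fin q) (Fin p ⊕ Fin q) ℂ)) -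
      ((x : Matrix (Fin p ⊕ Fin q) (Fin p ⊕ Fin q) ℂ) * Y
      - Y * (x : Matrix (Fin p ⊕ Fin q) (Fin p ⊕ Fin q) ℂ)) *
      (x : Matrix (Fin p ⊕ Fin q) (Fin p ⊕ Fin q) ℂ) = 0 := by
    intro Y hY
    have h3 := congrArg (fun t : su p q => (t : Matrix (Fin p ⊕ Fin q) (Fin p ⊕ Fin q) ℂ))
      (h1 ⟨Y, hY⟩)
    simpa [LieSubalgebra.coe_bracket, Ring.lie_def] using h3
  obtain ⟨h3, h4⟩ := scalar_of_double (double_bracket hp h2)
  have htr : (x : Matrix (Fin p ⊕ Fin q) (Fin p ⊕ Fin q) ℂ).trace = 0 := x.2.2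
  have hpq0 : ((p : ℂ) + q) ≠ 0 := by
    exact_mod_cast (by omega : p + q ≠ 0)
  have h5 : ∀ i, (x : Matrix (Fin p ⊕ Fin q) (Fin p ⊕ Fin q) ℂ) i i = 0 := by
    intro i
    rw [Matrix.trace] at htr
    simp only [Matrix.diag_apply] at htr
    rw [Finset.sum_congr rfl (fun j _ => h4 j i)] at htr
    rw [Finset.sum_const, Finset.card_univ, Fintype.card_sum, Fintype.card_fin,
      Fintype.card_fin, nsmul_eq_mul, Nat.cast_add] at htr
    exact (mul_eq_zero.1 htr).resolve_left hpq0
  apply Subtype.ext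
  ext i j
  by_cases hij : i = j
  · subst hij
    simpa using h5 i
  · simpa using h3 i j hij

lemma su_isSemisimple (hp : 0 < p) : LieAlgebra.IsSemisimple ℝ (su p q) :=
  LieAlgebra.InvariantForm.isSemisimple_of_nondegenerate (form p q) form_nondeg form_inv form_refl
    (no_abelian_atom hp)

lemma zMat_mem : zMat p q ∈ su p q := by
  constructor
  · unfold zMat J
    rw [Matrix.diagonal_conjTranspose, Matrix.diagonal_mul_diagonal,
      Matrix.diagonal_mul_diagonal, Matrix.diagonal_add, ← Matrix.diagonal_zero]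
    congr 1
    funext i
    rcases i with i | i <;> simp
  · simp [zMat, Matrix.trace, Matrix.diag_apply, Matrix.diagonal_apply]
    ring

/-! ### Purely imaginary eigenvalues are impossible -/

lemma trace_comm_zero {X Y Z C : Matrix (Fin p ⊕ Fin q) (Fin p ⊕ Fin q) ℂ}
    (h : X * Y - Y * X = Z) (hC : X * C = C * X) : (Z * C).trace = 0 := by
  rw [← h, sub_mul, Matrix.trace_sub, Matrix.mul_assoc, Matrix.mul_assoc, hC,
    ← Matrix.mul_assoc Y, ← Matrix.trace_mul_comm X, sub_self]

lemma no_imag_eigen (hp : 0 < p) (hq : 0 < q)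
    {X Y : Matrix (Fin p ⊕ Fin q) (Fin p ⊕ Fin q) ℂ} (hX : Xᴴ * J p q + J p q * X = 0)
    (h : X * Y - Y * X = zMat p q) {lam : ℂ} (hlam : star lam = -lam)
    {v : Fin p ⊕ Fin q → ℂ} (hv : X *ᵥ v = lam • v) : v = 0 := by
  have hX2 : J p q * X = -(Xᴴ * J p q) := eq_neg_of_add_eq_zero_right hX
  have hcomm : X * vecMulVec v (star v ᵥ* J p q) = vecMulVec v (star v ᵥ* J p q) * X := by
    rw [Matrix.mul_vecMulVec, Matrix.vecMulVec_mul, Matrix.vecMul_vecMul, hX2, hv,
      Matrix.vecMul_neg, ← Matrix.vecMul_vecMul, ← Matrix.star_mulVec, hv, star_smul, hlam,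
      Matrix.smul_vecMul, neg_smul, neg_neg, Matrix.smul_vecMulVec, Matrix.vecMulVec_smul]
  have ht := trace_comm_zero h hcomm
  rw [Matrix.mul_vecMulVec, Matrix.trace_vecMulVec] at ht
  have hval : ∀ i, (zMat p q *ᵥ v) i * (star v ᵥ* J p q) i =
      Complex.I * (((Sum.elim (fun _ => (q : ℝ)) (fun _ => (p : ℝ)) i) *
        Complex.normSq (v i) : ℝ) : ℂ) := by
    intro i
    unfold zMat J
    rw [Matrix.mulVec_diagonal, Matrix.vecMul_diagonal]
    rcases i with i | i
    · simp only [Sum.elim_inl, Pi.star_apply, mul_one]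
      push_cast
      rw [← Complex.mul_conj]
      simp only [Complex.star_def]
      ring
    · simp only [Sum.elim_inr, Pi.star_apply]
      push_cast
      rw [← Complex.mul_conj]
      simp only [Complex.star_def]
      ring
  have ht2 : Complex.I * ((∑ i, (Sum.elim (fun _ => (q : ℝ)) (fun _ => (p : ℝ)) i) *
        Complex.normSq (v i) : ℝ) : ℂ) = 0 := by
    rw [← ht]
    unfold dotProduct
    rw [Complex.ofReal_sum, Finset.mul_sum]
    exact Finset.sum_congr rfl fun i _ => (hval i).symm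
  have ht3 : (∑ i, (Sum.elim (fun _ => (q : ℝ)) (fun _ => (p : ℝ)) i) *
        Complex.normSq (v i)) = 0 := by
    have := (mul_eq_zero.1 ht2).resolve_left Complex.I_ne_zero
    exact_mod_cast this
  have hpos : ∀ i : Fin p ⊕ Fin q, 0 < (Sum.elim (fun _ => (q : ℝ)) (fun _ => (p : ℝ)) i) := by
    intro i
    rcases i with i | i
    · simpa using hq
    · simpa using hp
  have h4 := (Finset.sum_eq_zero_iff_of_nonneg
    (fun i _ => mul_nonneg (hpos i).le (Complex.normSq_nonneg (v i)))).1 ht3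
  funext i
  have h5 := h4 i (Finset.mem_univ i)
  exact Complex.normSq_eq_zero.1 ((mul_eq_zero.1 h5).resolve_left (hpos i).ne')

/-! ### The signature argument -/

/-- The indefinite Hermitian form. -/
noncomputable def B (p q : ℕ) (u v : Fin p ⊕ Fin q → ℂ) : ℂ := star u ⬝ᵥ (J p q *ᵥ v)

lemma B_self (u : Fin p ⊕ Fin q → ℂ) :
    B p q u u = ((∑ i, Complex.normSq (u (Sum.inl i)) - ∑ j, Complex.normSq (u (Sum.inr j)) : ℝ) : ℂ) := by
  unfold B J dotProduct
  rw [Fintype.sum_sum_type, Complex.ofReal_sub, Complex.ofReal_sum, Complex.ofReal_sum,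
    sub_eq_add_neg, ← Finset.sum_neg_distrib]
  congr 1
  · refine Finset.sum_congr rfl fun i _ => ?_
    rw [Matrix.mulVec_diagonal]
    simp [Complex.normSq_eq_conj_mul_self]
  · refine Finset.sum_congr rfl fun i _ => ?_
    rw [Matrix.mulVec_diagonal]
    simp [Complex.normSq_eq_conj_mul_self]

lemma B_add_left (u u' v : Fin p ⊕ Fin q → ℂ) : B p q (u + u') v = B p q u v + B p q u' v := by
  unfold B
  rw [star_add, add_dotProduct]

lemma B_add_right (u v v' : Fin p ⊕ Fin q → ℂ) : B p q u (v + v') = B p q u v + B p q u v' := by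
  unfold B
  rw [Matrix.mulVec_add, dotProduct_add]

lemma B_smul_left (c : ℂ) (u v : Fin p ⊕ Fin q → ℂ) : B p q (c • u) v = star c * B p q u v := by
  unfold B
  rw [star_smul, smul_dotProduct, smul_eq_mul]

lemma B_smul_right (c : ℂ) (u v : Fin p ⊕ Fin q → ℂ) : B p q u (c • v) = c * B p q u v := by
  unfold B
  rw [Matrix.mulVec_smul, dotProduct_smul, smul_eq_mul]

lemma B_zero_left (v : Fin p ⊕ Fin q → ℂ) : B p q 0 v = 0 := by
  unfold B
  rw [star_zero, zero_dotProduct]

lemma B_zero_right (v : Fin p ⊕ Fin q → ℂ) : B p q v 0 = 0 := by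
  unfold B
  rw [Matrix.mulVec_zero, dotProduct_zero]

lemma B_skew {X : Matrix (Fin p ⊕ Fin q) (Fin p ⊕ Fin q) ℂ} (hX : Xᴴ * J p q + J p q * X = 0)
    (u v : Fin p ⊕ Fin q → ℂ) : B p q (X *ᵥ u) v + B p q u (X *ᵥ v) = 0 := by
  unfold B
  rw [Matrix.star_mulVec, Matrix.mulVec_mulVec, ← Matrix.dotProduct_mulVec,
    Matrix.mulVec_mulVec, ← dotProduct_add, ← Matrix.add_mulVec, hX, Matrix.zero_mulVec,
    dotProduct_zero]

/-- Generalised eigenvectors for eigenvalues `lam`, `mu` with `conj lam + mu ≠ 0` are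
orthogonal. -/
lemma B_gen {X : Matrix (Fin p ⊕ Fin q) (Fin p ⊕ Fin q) ℂ} (hX : Xᴴ * J p q + J p q * X = 0)
    {lam mu : ℂ} (hlm : star lam + mu ≠ 0) :
    ∀ (N m n : ℕ), m + n ≤ N → ∀ u v : Fin p ⊕ Fin q → ℂ,
      ((X - lam • (1 : Matrix (Fin p ⊕ Fin q) (Fin p ⊕ Fin q) ℂ)) ^ m) *ᵥ u = 0 →
      ((X - mu • (1 : Matrix (Fin p ⊕ Fin q) (Fin p ⊕ Fin q) ℂ)) ^ n) *ᵥ v = 0 →
      B p q u v = 0 := by
  intro N
  induction N with
  | zero =>
    intro m n hmn u v hu hv
    have hm : m = 0 := by omega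
    subst hm
    rw [pow_zero, Matrix.one_mulVec] at hu
    rw [hu, B_zero_left]
  | succ N ih =>
    intro m n hmn u v hu hv
    rcases Nat.eq_zero_or_pos m with hm | hm
    · subst hm
      rw [pow_zero, Matrix.one_mulVec] at hu
      rw [hu, B_zero_left]
    rcases Nat.eq_zero_or_pos n with hn | hn
    · subst hn
      rw [pow_zero, Matrix.one_mulVec] at hv
      rw [hv, B_zero_right]
    obtain ⟨m, rfl⟩ : ∃ m', m = m' + 1 := ⟨m - 1, by omega⟩
    obtain ⟨n, rfl⟩ : ∃ n', n = n' + 1 := ⟨n - 1, by omega⟩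
    set u' := (X - lam • (1 : Matrix (Fin p ⊕ Fin q) (Fin p ⊕ Fin q) ℂ)) *ᵥ u with hu'
    set v' := (X - mu • (1 : Matrix (Fin p ⊕ Fin q) (Fin p ⊕ Fin q) ℂ)) *ᵥ v with hv'
    have hu1 : ((X - lam • (1 : Matrix (Fin p ⊕ Fin q) (Fin p ⊕ Fin q) ℂ)) ^ m) *ᵥ u' = 0 := by
      rw [hu', Matrix.mulVec_mulVec, ← pow_succ]
      exact hu
    have hv1 : ((X - mu • (1 : Matrix (Fin p ⊕ Fin q) (Fin p ⊕ Fin q) ℂ)) ^ n) *ᵥ v' = 0 := by
      rw [hv', Matrix.mulVec_mulVec, ← pow_succ]
      exact hv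
    have k1 : B p q u' v = 0 := ih m (n + 1) (by omega) u' v hu1 hv
    have k2 : B p q u v' = 0 := ih (m + 1) n (by omega) u v' hu hv1
    have eu : X *ᵥ u = lam • u + u' := by
      rw [hu', Matrix.sub_mulVec, Matrix.smul_mulVec, Matrix.one_mulVec]
      abel
    have ev : X *ᵥ v = mu • v + v' := by
      rw [hv', Matrix.sub_mulVec, Matrix.smul_mulVec, Matrix.one_mulVec]
      abel
    have k3 := B_skew hX u v
    rw [eu, ev, B_add_left, B_add_right, B_smul_left, B_smul_right, k1, k2] at k3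
    have k4 : (star lam + mu) * B p q u v = 0 := by linear_combination k3
    exact (mul_eq_zero.1 k4).resolve_left hlm

/-- An isotropic subspace has dimension at most `q`. -/
lemma isotropic_le_q (W : Submodule ℂ (Fin p ⊕ Fin q → ℂ)) (hW : ∀ u ∈ W, B p q u u = 0) :
    Module.finrank ℂ W ≤ q := by
  let f : W →ₗ[ℂ] (Fin q → ℂ) := (LinearMap.funLeft ℂ ℂ Sum.inr).comp W.subtype
  have hf : Function.Injective f := by
    rw [← LinearMap.ker_eq_bot, LinearMap.ker_eq_bot']
    intro u hu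
    have h1 := hW u.1 u.2
    rw [B_self] at h1
    have h2 : ∀ j, (u : Fin p ⊕ Fin q → ℂ) (Sum.inr j) = 0 := fun j => congrFun hu j
    simp only [h2, map_zero, Finset.sum_const_zero, sub_zero] at h1
    have h3 : (∑ i, Complex.normSq ((u : Fin p ⊕ Fin q → ℂ) (Sum.inl i))) = 0 := by
      exact_mod_cast h1
    have h4 := (Finset.sum_eq_zero_iff_of_nonneg (fun i _ => Complex.normSq_nonneg _)).1 h3
    apply Subtype.ext
    funext i
    rcases i with i | i
    · exact Complex.normSq_eq_zero.1 (h4 i (Finset.mem_univ i))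
    · exact h2 i
  have := LinearMap.finrank_le_finrank_of_injective hf
  simpa using this

/-- An isotropic subspace has dimension at most `p`. -/
lemma isotropic_le_p (W : Submodule ℂ (Fin p ⊕ Fin q → ℂ)) (hW : ∀ u ∈ W, B p q u u = 0) :
    Module.finrank ℂ W ≤ p := by
  let f : W →ₗ[ℂ] (Fin p → ℂ) := (LinearMap.funLeft ℂ ℂ Sum.inl).comp W.subtype
  have hf : Function.Injective f := by
    rw [← LinearMap.ker_eq_bot, LinearMap.ker_eq_bot']
    intro u hu
    have h1 := hW u.1 u.2
    rw [B_self] at h1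
    have h2 : ∀ j, (u : Fin p ⊕ Fin q → ℂ) (Sum.inl j) = 0 := fun j => congrFun hu j
    simp only [h2, map_zero, Finset.sum_const_zero, zero_sub] at h1
    have h3 : (∑ i, Complex.normSq ((u : Fin p ⊕ Fin q → ℂ) (Sum.inr i))) = 0 := by
      have : (-(∑ i, Complex.normSq ((u : Fin p ⊕ Fin q → ℂ) (Sum.inr i)))) = 0 := by
        exact_mod_cast h1
      linarith
    have h4 := (Finset.sum_eq_zero_iff_of_nonneg (fun i _ => Complex.normSq_nonneg _)).1 h3
    apply Subtype.ext
    funext i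
    rcases i with i | i
    · exact h2 i
    · exact Complex.normSq_eq_zero.1 (h4 i (Finset.mem_univ i))
  have := LinearMap.finrank_le_finrank_of_injective hf
  simpa using this

/-- A matrix of `u(p,q)` with no purely imaginary eigenvalue exists only for `p = q`. -/
lemma eq_of_no_imag {X : Matrix (Fin p ⊕ Fin q) (Fin p ⊕ Fin q) ℂ}
    (hX : Xᴴ * J p q + J p q * X = 0)
    (hno : ∀ lam : ℂ, star lam = -lam → ∀ v : Fin p ⊕ Fin q → ℂ, X *ᵥ v = lam • v → v = 0) :
    p = q := by
  set T : Module.End ℂ (Fin p ⊕ Fin q → ℂ) := Matrix.toLin' X with hT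
  set Wp : Submodule ℂ (Fin p ⊕ Fin q → ℂ) :=
    ⨆ (lam : {l : ℂ // 0 < l.re}), T.maxGenEigenspace lam.1 with hWp
  set Wm : Submodule ℂ (Fin p ⊕ Fin q → ℂ) :=
    ⨆ (lam : {l : ℂ // l.re < 0}), T.maxGenEigenspace lam.1 with hWm
  have hgen : ∀ (lam : ℂ) (u : Fin p ⊕ Fin q → ℂ), u ∈ T.maxGenEigenspace lam → ∃ k : ℕ,
      ((X - lam • (1 : Matrix (Fin p ⊕ Fin q) (Fin p ⊕ Fin q) ℂ)) ^ k) *ᵥ u = 0 := by
    intro lam u hu
    rw [Module.End.mem_maxGenEigenspace] at hu
    obtain ⟨k, hk⟩ := hu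
    refine ⟨k, ?_⟩
    have e : ((T - lam • (1 : Module.End ℂ (Fin p ⊕ Fin q → ℂ))) ^ k) =
        Matrix.toLin' ((X - lam • (1 : Matrix (Fin p ⊕ Fin q) (Fin p ⊕ Fin q) ℂ)) ^ k) := by
      rw [Matrix.toLin'_pow, map_sub, map_smul, Matrix.toLin'_one]
      rfl
    rw [e, Matrix.toLin'_apply] at hk
    exact hk
  have horth : ∀ lam mu : ℂ, star lam + mu ≠ 0 → ∀ u ∈ T.maxGenEigenspace lam,
      ∀ v ∈ T.maxGenEigenspace mu, B p q u v = 0 := by
    intro lam mu hlm u hu v hv
    obtain ⟨m, hm⟩ := hgen lam u hu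
    obtain ⟨n, hn⟩ := hgen mu v hv
    exact B_gen hX hlm (m + n) m n le_rfl u v hm hn
  have hisoP : ∀ u ∈ Wp, ∀ v ∈ Wp, B p q u v = 0 := by
    intro u hu v hv
    refine Submodule.iSup_induction _ (motive := fun u => B p q u v = 0) hu ?_ ?_ ?_
    · intro lam u hu
      refine Submodule.iSup_induction _ (motive := fun v => B p q u v = 0) hv ?_ ?_ ?_
      · intro mu v hv
        refine horth lam.1 mu.1 ?_ u hu v hv
        intro h0
        have := congrArg Complex.re h0
        simp at this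
        have h1 := lam.2
        have h2 := mu.2
        linarith
      · exact B_zero_right u
      · intro v v' h1 h2
        rw [B_add_right, h1, h2, add_zero]
    · exact B_zero_left v
    · intro u u' h1 h2
      rw [B_add_left, h1, h2, add_zero]
  have hisoM : ∀ u ∈ Wm, ∀ v ∈ Wm, B p q u v = 0 := by
    intro u hu v hv
    refine Submodule.iSup_induction _ (motive := fun u => B p q u v = 0) hu ?_ ?_ ?_
    · intro lam u hu
      refine Submodule.iSup_induction _ (motive := fun v => B p q u v = 0) hv ?_ ?_ ?_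
      · intro mu v hv
        refine horth lam.1 mu.1 ?_ u hu v hv
        intro h0
        have := congrArg Complex.re h0
        simp at this
        have h1 := lam.2
        have h2 := mu.2
        linarith
      · exact B_zero_right u
      · intro v v' h1 h2
        rw [B_add_right, h1, h2, add_zero]
    · exact B_zero_left v
    · intro u u' h1 h2
      rw [B_add_left, h1, h2, add_zero]
  have htop : Wp ⊔ Wm = ⊤ := by
    rw [eq_top_iff, ← Module.End.iSup_maxGenEigenspace_eq_top T]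
    apply iSup_le
    intro lam
    rcases lt_trichotomy lam.re 0 with hl | hl | hl
    · exact le_trans (le_iSup (fun l : {l : ℂ // l.re < 0} => T.maxGenEigenspace l.1) ⟨lam, hl⟩)
        le_sup_right
    · have hst : star lam = -lam := by
        apply Complex.ext
        · simp [hl]
        · simp
      have hbot : T.maxGenEigenspace lam = ⊥ := by
        by_contra hne
        have hev : T.HasEigenvalue lam := by
          obtain ⟨u, hu, hu0⟩ := Submodule.exists_mem_ne_zero_of_ne_bot hne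
          rw [Module.End.mem_maxGenEigenspace] at hu
          obtain ⟨k, hk⟩ := hu
          have hmem : u ∈ T.genEigenspace lam k := by
            rw [Module.End.mem_genEigenspace_nat, LinearMap.mem_ker]
            exact hk
          apply Module.End.hasEigenvalue_of_hasGenEigenvalue (k := k)
          rw [Module.End.hasGenEigenvalue_iff]
          intro hb
          rw [hb] at hmem
          exact hu0 ((Submodule.mem_bot ℂ).1 hmem)
        obtain ⟨v, hv⟩ := hev.exists_hasEigenvector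
        have h1 := hv.apply_eq_smul
        rw [hT, Matrix.toLin'_apply] at h1
        exact hv.2 (hno lam hst v h1)
      rw [hbot]
      exact bot_le
    · exact le_trans (le_iSup (fun l : {l : ℂ // 0 < l.re} => T.maxGenEigenspace l.1) ⟨lam, hl⟩)
        le_sup_left
  have hfin : Module.finrank ℂ (Fin p ⊕ Fin q → ℂ) = p + q := by
    rw [Module.finrank_fintype_fun_eq_card]
    simp
  have hsum : p + q ≤ Module.finrank ℂ Wp + Module.finrank ℂ Wm := by
    have := Submodule.finrank_add_le_finrank_add_finrank Wp Wm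
    rw [htop, finrank_top, hfin] at this
    exact this
  have a1 := isotropic_le_q Wp (fun u hu => hisoP u hu u hu)
  have a2 := isotropic_le_q Wm (fun u hu => hisoM u hu u hu)
  have a3 := isotropic_le_p Wp (fun u hu => hisoP u hu u hu)
  have a4 := isotropic_le_p Wm (fun u hu => hisoM u hu u hu)
  omega

theorem z_not_bracket (hp : 0 < p) (hq : 0 < q) (hpq : p ≠ q) (x y : su p q) :
    ((⁅x, y⁆ : su p q) : Matrix (Fin p ⊕ Fin q) (Fin p ⊕ Fin q) ℂ) ≠ zMat p q := by
  intro h
  rw [LieSubalgebra.coe_bracket, Ring.lie_def] at h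
  apply hpq
  exact eq_of_no_imag x.2.1 (fun lam hlam v hv => no_imag_eigen hp hq x.2.1 h hlam hv)

end Pool.Agent.Work.MP_61cc98_al_helper49
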